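import Mathlib
import Pool.Agent.Zk58.EK.Sel6
import Pool.Agent.Zk58.EK.CV2c
import Pool.Agent.Zk86.EKm.CV1
import Pool.Agent.Zk83.EKm.CV3

set_option autoImplicit false

/-!
# MP_37ff18_mp: covariant choice of a ground state pair

Edwards-Anderson model on `ℤ^d` with i.i.d. couplings `J_e = ψ(X_e)`. All definitions are in
`Pool/Agent/Zk58/EK/Base.lean`.

`MacroUnique`: almost surely any two ground states differ on `o(n ^ d)` bonds of the cube `[0, n)^d`
(there are no ground states which differ on a positive fraction of the bonds).

(C): a pair of ground states can be chosen measurably and translation-covariantly, in terms of its bond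
signs: there are events `U i` such that almost surely the configuration in which the sign of each bond
`(x, x + e_i)` is plus if and only if the environment seen from `x` is in `U i` exists and is a
ground state.

1. In every dimension `d ≥ 2`, for square-integrable couplings of atomless law, `MacroUnique` implies (C).

2. Let `d = 2`, `J_e = A_e + χ(Y_e)`, where `A_e` is Gaussian and `Y_e` is
independent of `A_e`, of arbitrary law, `χ(Y_e)` square-integrable.

* For every event `U` of the environment `(A, Y)` (it need not be local) and every direction `i`, with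
  probability tending to one, the sums of `ρ_x ρ_{x + e_i}` over the sites `x` of the
  square `[0, n)^2` from which `U` is seen agree up to `ε n ^ 2` for all ground states `ρ` of the
  square, with arbitrary boundary spins (so of the different bonds of two ground states half are plus in
  the first one, whatever the environment is).
* (C) implies `MacroUnique`.

So in two dimensions the ground states agree macroscopically if and only if a pair of ground states can be
chosen measurably and translation-covariantly; otherwise there are infinitely many ground states and every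
covariant law on ground states given the couplings is random.

Proof. 2: let `g(t)` be the ground state energy per site of `k` replicas, perturbed by `t` times the sum of
the translates of a local observable `F`. By convexity all ground states have averages of `F` in
`[g'(0-), g'(0+)]` up to `ε`. We change the couplings of the square by
`s φ(θ_x Y) = O(1 / n)`. The law of the environment remains contiguous (Cameron-Martin), the energies of the
ground states of both families of couplings are within `O(n)` of the maximum, and if there were
ground states with averages `l < r` then the difference of the energies would be of order `s n ^ 2 (r - l)`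
with an arbitrarily large constant. (This is the mechanism of Aizenman and Wehr for covariant states.)
1: by stability (`MacroUnique` implies that nearly optimal configurations of large cubes agree on nearly all
bonds) the fraction of the cubes of side `n` around a bond in whose free ground state the bond is plus converges
in `L^1`, and the limit is `0` or `1`; this defines `U`, and by compactness the limit is a ground state.
-/

namespace Pool.Agent.Results.MP_37ff18_mp.CovariantChoice

open MeasureTheory ProbabilityTheory Filter Topology
open scoped NNReal
open Pool.Agent.Zk58.EK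

/-- **Main theorem.** -/
theorem result :
    -- 1. all dimensions
    (∀ (d : ℕ), 2 ≤ d → ∀ (S : Type) [MeasurableSpace S] (μ : Measure S) [IsProbabilityMeasure μ]
      (ψ : S → ℝ), Measurable ψ → MemLp ψ 2 μ → (∀ t : ℝ, μ {s | ψ s = t} = 0) →
      MacroUnique μ ψ d → ∃ U : Fin d → Set (Bond d → S), (∀ i, MeasurableSet (U i)) ∧
        ∀ᵐ X ∂(PX d μ), ∃ τ : Site d → ℝ, IsGroundState (fun e => ψ (X e)) τ ∧
          ∀ e : Bond d, τ e.1 * τ (tip e) = 1 ↔ th e.1 X ∈ U e.2) ∧
    -- 2. two dimensions, couplings with a Gaussian component
    ∀ (T : Type) [MeasurableSpace T] (ν : Measure T) [IsProbabilityMeasure ν] (χ : T → ℝ) (v : ℝ≥0),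
      Measurable χ → MemLp χ 2 ν → v ≠ 0 →
      ((∃ U : Fin 2 → Set (Bond 2 → ℝ × T), (∀ i, MeasurableSet (U i)) ∧
          ∀ᵐ X ∂(PX 2 ((gaussianReal 0 v).prod ν)), ∃ τ : Site 2 → ℝ,
            IsGroundState (fun e => (X e).1 + χ (X e).2) τ ∧
              ∀ e : Bond 2, τ e.1 * τ (tip e) = 1 ↔ th e.1 X ∈ U e.2) →
        MacroUnique ((gaussianReal 0 v).prod ν) (fun x => x.1 + χ x.2) 2) ∧
      ∀ (U : Set (Bond 2 → ℝ × T)) (i : Fin 2) (ε : ℝ), MeasurableSet U → 0 < ε →
        Tendsto (fun n : ℕ => (PX 2 ((gaussianReal 0 v).prod ν)) {X | ∃ ρ τ : Site 2 → ℝ,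
          CubeGS (fun e => (X e).1 + χ (X e).2) 0 n ρ ∧
          CubeGS (fun e => (X e).1 + χ (X e).2) 0 n τ ∧
          ε * (n : ℝ) ^ 2 < |∑ x ∈ cube 0 n, U.indicator 1 (th x X) *
            (ρ x * ρ (tip (x, i)) - τ x * τ (tip (x, i)))|}) atTop (𝓝 0) := by
  refine ⟨fun d hd S _ μ _ ψ hψ hψ2 hat hM => ?_,
    fun T _ ν _ χ v hχ hχ2 hv => ⟨fun hc =>
      choice_macro Pool.Agent.Zk39.EKm.t_LLN Pool.Agent.Zk86.EKm.t_SPL Pool.Agent.Zk86.EKm.t_FUS
        hv hχ hχ2 hc, fun U i ε hU hε => ?_⟩⟩
  · obtain ⟨sg, hsg⟩ := Pool.Agent.Zk58.EK.t_CV1 d S ψ hψ
    exact Pool.Agent.Zk83.EKm.t_CV3 d hd S μ ψ hψ hat sg hsg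
      (t_CV2 d hd S μ ψ hψ hψ2 hat hM sg hsg)
  · have h := env_unique hv hχ hχ2 hU i hε
    refine h.congr fun n => ?_
    congr 1
    ext X
    simp only [Set.mem_ofPred_eq]
    have e1 : ∀ ρ τ : Site 2 → ℝ, su i U n X ρ - su i U n X τ = ∑ x ∈ cube 0 n,
        U.indicator 1 (th x X) * (ρ x * ρ (tip (x, i)) - τ x * τ (tip (x, i))) := by
      intro ρ τ
      unfold su
      rw [← Finset.sum_sub_distrib]
      exact Finset.sum_congr rfl fun x _ => by ring
    simp only [e1]
    rfl

end Pool.Agent.Results.MP_37ff18_mp.CovariantChoice
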