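import Mathlib
import Pool.Agent.Zk58.EK.Sel6
import Pool.Agent.Zk83.SB.LDG

set_option autoImplicit false

/-!
# MP_37ff18_mp: when do all ground states agree macroscopically?

Edwards-Anderson model on `ℤ^d`, `d ≥ 2`, with i.i.d. square-integrable couplings `J_e = ψ(X_e)` of
atomless law. Nearly all definitions are in `Pool/Agent/Zk58/EK/Base.lean` (`VolumeOrder` and
`SurfaceOrder` are in `Pool/Agent/Zk83/SB/LD.lean`).

The following are equivalent:

* `MacroUnique`: almost surely any two ground states differ on `o(n ^ d)` bonds of the cube `[0, n)^d`
  (there are no ground states which differ on a positive fraction of the bonds);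
* `BoundaryUnique`: in large cubes any two ground states, for arbitrary boundary spins (which may
  depend on the couplings), differ on at most `ε n ^ d` bonds;
* `EssUnique`: in large cubes any two configurations whose energy is within `δ n ^ d` of the minimum
  differ on at most `ε n ^ d` bonds;
* `StableMean`: the ground states of large cubes with free boundary conditions are stable under all
  changes of the couplings which are small on the average (also adversarial changes, which depend on
  the couplings);
* `StableSup`: the same for changes of all couplings by at most `δ`;
* `OverlapDiff`: the energy of two replicas coupled by `t` times the bond overlap is differentiable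
  at `t = 0`.

For couplings with an exponential moment (for example Gaussian couplings) they are also equivalent to

* `VolumeOrder`: the probability that some two ground states of the cube `[0, n)^d`, for arbitrary boundary
  spins, differ on at least `ε n ^ d` bonds is at most `exp (-c n ^ d)`;
* the negation of `SurfaceOrder`: there are fixed boundary spins (which do not depend on the couplings) for
  which this probability is at least `exp (-K n ^ (d - 1))`.

If there is only one pair of ground states then these properties hold. So each of the following
implies that there are incongruent ground states, and is equivalent to a positive fraction of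
different bonds: chaos of the bond overlap under arbitrarily small changes of the couplings, even
adversarial ones; nearly optimal configurations (excess energy `o(n ^ d)`) which
differ from the optimum on a positive fraction of the bonds; a kink of the energy of two coupled replicas;
large deviations of surface order for fixed boundary conditions.

Proof. Let `g(t)` be the ground state energy per site of `k` replicas, perturbed by `t` times the sum of the
translates of a local observable `F`. The fluctuations are of order `n ^ (-d / 2)` (blocks,
Chebyshev), and by convexity all ground states have averages of `F` in `[g'(0-), g'(0+)]` up to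
`ε`. Conversely, the maximisers of the perturbed energy are, for small `t > 0` and in
large boxes around most of the sites, ground states up to a small error, so by compactness the mean
of the maximum over all ground states of any local observable is at least the right derivative
in its direction. We apply this to the block averages of `F`, and to sums of
block averages of several scales; they are asymptotically at most `g'(0+)` with a small probability of
failure and uniform square integrability, so they must be close to `g'(0+)`. Moreover, if `τ` is a
ground state
then the free ground states of the couplings `J_xy + δ τ_x τ_y` agree with `τ` on nearly all bonds; so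
stability implies macroscopic uniqueness. For the large deviations we use McDiarmid's inequality and a
union bound over the boundary conditions.
-/

namespace Pool.Agent.Results.MP_37ff18_mp.EnergyKinks

open MeasureTheory ProbabilityTheory Filter Topology
open scoped NNReal
open Pool.Agent.Zk58.EK Pool.Agent.Zk83.SB.LD

/-- **Main theorem.** -/
theorem result (d : ℕ) (hd : 2 ≤ d) (S : Type) [MeasurableSpace S] (μ : Measure S)
    [IsProbabilityMeasure μ] (ψ : S → ℝ) (hψ : Measurable ψ) (hψ2 : MemLp ψ 2 μ)
    (hat : ∀ t : ℝ, μ {s | ψ s = t} = 0) :
    [MacroUnique μ ψ d, BoundaryUnique μ ψ d, EssUnique μ ψ d, StableMean μ ψ d, StableSup μ ψ d,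
      OverlapDiff μ ψ d].TFAE ∧
    ((∀ᵐ X ∂(PX d μ), ∀ ρ τ : Site d → ℝ, IsGroundState (fun e => ψ (X e)) ρ →
      IsGroundState (fun e => ψ (X e)) τ → τ = ρ ∨ τ = -ρ) → MacroUnique μ ψ d) ∧
    -- large deviations
    ∀ a : ℝ, 0 < a → Integrable (fun s => Real.exp (a * |ψ s|)) μ →
      (MacroUnique μ ψ d ↔ VolumeOrder μ ψ d) ∧ (MacroUnique μ ψ d ↔ ¬ SurfaceOrder μ ψ d) := by
  refine ⟨?_, unique_macro,
    fun a ha hexp => Pool.Agent.Zk83.SB.LDG.final d hd S μ ψ hψ a ha hexp hat⟩
  tfae_have 1 → 3 := diff_ess hd hψ hψ2 hat
  tfae_have 3 → 2 := ess_boundary hd hψ hψ2
  tfae_have 2 → 1 := boundary_macro
  tfae_have 3 → 4 := ess_stable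
  tfae_have 4 → 5 := mean_sup hd
  tfae_have 5 → 1 := stable_macro hd hψ hψ2
  tfae_have 1 ↔ 6 := macro_iff_diff hd hψ hψ2 hat
  tfae_finish

end Pool.Agent.Results.MP_37ff18_mp.EnergyKinks
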