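import Pool.Agent.Zk97.EA.Pow

/-!
# Edwards-Anderson ground states on `ℤ^d` follow the minimal spanning forest

For iid couplings on the bonds of `ℤ^d`, any `d`, whose law is spread over many scales, and for
every finite set of sites `Λ`, with probability close to one: all but a small fraction of the bonds
of the minimal spanning forest in `Λ` are satisfied in all ground states, and for all but a small
fraction of the pairs of neighbouring (or near) sites of `Λ` in the same tree all ground states have
the same relative sign. The ground states include those of the boxes of a fixed radius around the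
bond, with arbitrary boundary conditions. The forest (of Lyons, Peres and Schramm) consists of the
bonds which are the strongest bond in the boundary of a finite set of sites.

Idea: if the couplings in a box of radius `R` are separated by factors larger than the number of
bonds of the box, a bond which is the strongest one in the boundary of a set of sites in this box is
satisfied in every ground state. That a bond of the forest is not seen in the box of radius `R`
depends only on the order of the absolute values of the couplings, so its probability is the same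
for all atomless laws, and it is small for large `R`; with `R` fixed, the couplings in the box are
separated with high probability if the law is spread enough.
-/

set_option autoImplicit false

open MeasureTheory

namespace Pool.Agent.Results.MP_37ff18_mp.MinimalSpanningForest

/-- The sites are the points of `ℤ^d`. -/
abbrev Site (d : ℕ) : Type := Fin d → ℤ

/-- The bond `(v, i)` joins the sites `v` and `v + e_i`. -/
abbrev Bond (d : ℕ) : Type := (Fin d → ℤ) × Fin d

/-- The second end `v + e_i` of the bond `(v, i)`. -/
def tip {d : ℕ} (e : Bond d) : Site d := e.1 + (Pi.single e.2 (1 : ℤ) : Fin d → ℤ)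

/-- Every change of `σ` at sites of the box of radius `R` around `c` only (at least one site)
increases the energy `-∑ J_e σ σ` (the sum of the differences over all bonds is a finite sum): in
this box `σ` is a ground state for the boundary condition given by its own values outside the box.
Infinite-volume ground states, and ground states of larger finite volumes for any boundary
condition, have this property. -/
def IsGroundStateIn {d : ℕ} (J : Bond d → ℝ) (c : Site d) (R : ℕ) (σ : Site d → ℝ) : Prop :=
  (∀ x, σ x = 1 ∨ σ x = -1) ∧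
  ∀ ρ : Site d → ℝ, (∀ x, ρ x = 1 ∨ ρ x = -1) →
    (∀ x, ρ x ≠ σ x → ∀ i, |x i - c i| ≤ R) → ρ ≠ σ →
    0 < ∑ᶠ e : Bond d, J e * (σ e.1 * σ (tip e) - ρ e.1 * ρ (tip e))

/-- The bond `e` has exactly one end in the finite set of sites `A`. -/
def InBoundary {d : ℕ} (A : Finset (Site d)) (e : Bond d) : Prop :=
  (e.1 ∈ A ∧ tip e ∉ A) ∨ (e.1 ∉ A ∧ tip e ∈ A)

/-- The bond `e` belongs to the (wired) minimal spanning forest of the couplings `J`: there is a
finite set of sites `A` such that `e` is the strongest bond with exactly one end in `A`. -/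
def InForest {d : ℕ} (J : Bond d → ℝ) (e : Bond d) : Prop :=
  ∃ A : Finset (Site d), InBoundary A e ∧ ∀ f : Bond d, InBoundary A f → f ≠ e → |J f| < |J e|

/-- `x` and `y` are in the same tree of the forest: they are joined by a finite chain of bonds of
the forest. -/
def SameTree {d : ℕ} (J : Bond d → ℝ) (x y : Site d) : Prop :=
  Relation.ReflTransGen (fun u v => ∃ e : Bond d, InForest J e ∧
    ((e.1 = u ∧ tip e = v) ∨ (e.1 = v ∧ tip e = u))) x y

/-- The bonds `e = (v, i)`, `v ∈ Λ`, of the minimal spanning forest of `J` which are not satisfied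
in some ground state of the box of radius `R` around `v`, for the couplings `J'`. -/
def unsatisfied {d : ℕ} (R : ℕ) (Λ : Finset (Site d)) (J J' : Bond d → ℝ) : Set (Bond d) :=
  {e | e.1 ∈ Λ ∧ InForest J e ∧
    ∃ σ : Site d → ℝ, IsGroundStateIn J' e.1 R σ ∧ J' e * (σ e.1 * σ (tip e)) ≤ 0}

/-- The pairs `(x, z)`, `x ∈ Λ`, `z ∈ Z`, such that `x` and `x + z` are in the same tree of the
minimal spanning forest of `J`, and the relative sign of the spins at `x` and `x + z` is not the
same in two ground states of the box of radius `R` around `x`, for the couplings `J'`. -/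
def disagreements {d : ℕ} (R : ℕ) (Λ Z : Finset (Site d)) (J J' : Bond d → ℝ) :
    Set (Site d × Site d) :=
  {p | p.1 ∈ Λ ∧ p.2 ∈ Z ∧ SameTree J p.1 (p.1 + p.2) ∧
    ∃ σ τ : Site d → ℝ, IsGroundStateIn J' p.1 R σ ∧ IsGroundStateIn J' p.1 R τ ∧
      σ p.1 * σ (p.1 + p.2) ≠ τ p.1 * τ (p.1 + p.2)}

/-- In `Λ` all ground states for the couplings `J'` follow the minimal spanning forest of `J`, up
to the fraction `ε`. -/
def Follow {d : ℕ} (R : ℕ) (ε : ℝ) (Λ Z : Finset (Site d)) (J J' : Bond d → ℝ) : Prop :=
  ((unsatisfied R Λ J J').ncard : ℝ) ≤ ε * Λ.card ∧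
  ((disagreements R Λ Z J J').ncard : ℝ) ≤ ε * Λ.card

open Pool.Agent.Zk97.EA

lemma gs_iff {d : ℕ} {J : Bond d → ℝ} {c : Site d} {R : ℕ} {σ : Site d → ℝ} :
    IsGroundStateIn J c R σ ↔ IsGS (Ball R c) J σ := by
  have hb : (Ball R c : Set (Site d)).Finite := by
    have h : (Ball R c : Set (Site d)) ⊆
        ((Fintype.piFinset fun i : Fin d => Finset.Icc (c i - R) (c i + R) : Finset (Site d)) :
          Set (Site d)) := by
      intro y hy
      rw [Finset.mem_coe, Fintype.mem_piFinset]
      intro i
      have := abs_le.1 (hy i)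
      rw [Finset.mem_Icc]
      constructor <;> linarith [this.1, this.2]
    exact (Finset.finite_toSet _).subset h
  constructor
  · rintro ⟨h1, h2⟩
    exact ⟨h1, fun ρ hρ _ hs hne => h2 ρ hρ (fun x hx => hs hx) hne⟩
  · rintro ⟨h1, h2⟩
    exact ⟨h1, fun ρ hρ hs hne => h2 ρ hρ (hb.subset fun x hx => hs x hx) (fun x hx => hs x hx) hne⟩

lemma forest_iff {d : ℕ} {J : Bond d → ℝ} {e : Bond d} :
    InForest J e ↔ Strong (ordr fun e => |J e|) e := Iff.rfl

lemma tree_iff {d : ℕ} {J : Bond d → ℝ} {x y : Site d} :
    SameTree J x y ↔ Reach {e | Strong (ordr fun e => |J e|) e} x y := Iff.rfl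

lemma follow_of {d : ℕ} {R : ℕ} {ε : ℝ} {Λ Z : Finset (Site d)} {J : Bond d → ℝ}
    (h : J ∉ Exc R ε Λ Z) : Follow R ε Λ Z J J := by
  have e1 : unsatisfied R Λ J J = BadBonds R J Λ := by
    unfold unsatisfied BadBonds
    simp only [gs_iff]
    rfl
  have e2 : disagreements R Λ Z J J = BadPairs R J Λ Z := by
    unfold disagreements BadPairs
    simp only [gs_iff]
    rfl
  refine ⟨?_, ?_⟩
  · by_contra hc
    rw [e1] at hc
    exact h (Or.inl (not_le.1 hc))
  · by_contra hc
    rw [e2] at hc
    exact h (Or.inr (not_le.1 hc))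

lemma follow_pw {d : ℕ} {R : ℕ} {ε t : ℝ} (ht : 0 < t) {Λ Z : Finset (Site d)} {J : Bond d → ℝ}
    (h : (fun e => pw t (J e)) ∉ Exc R ε Λ Z) :
    Follow R ε Λ Z J fun e => Real.sign (J e) * |J e| ^ t := by
  have h1 := follow_of h
  have h2 : ∀ e, InForest (fun e => pw t (J e)) e ↔ InForest J e := by
    intro e
    rw [forest_iff, forest_iff, ordr_pw ht J]
  have h3 : ∀ x y, SameTree (fun e => pw t (J e)) x y ↔ SameTree J x y := by
    intro x y
    unfold SameTree
    simp only [h2]
  refine ⟨?_, ?_⟩
  · have h4 := h1.1
    unfold unsatisfied at h4 ⊢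
    simp only [h2] at h4
    exact h4
  · have h4 := h1.2
    unfold disagreements at h4 ⊢
    simp only [h3] at h4
    exact h4

/-- Let `d ≥ 0`, let `Z` be a finite set of vectors of `ℤ^d` and `ε > 0`. There is a radius `R`
(which depends only on `d`, `Z` and `ε`) such that the following holds.

(1) There are `K, δ > 0` such that, for every atomless law `μ` on `ℝ` for which the absolute values
of two independent couplings are within a factor `K` of each other with probability at most `δ`,
and for every finite set of sites `Λ`, with probability at least `1 - ε` the ground states follow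
the minimal spanning forest in `Λ`, up to the fraction `ε`.

(2) Let `μ` be any atomless law on `ℝ`. For all large `t` and every finite set `Λ` the ground
states for the couplings `sign(J) |J|^t`, with `J` iid of law `μ`, follow with probability at least
`1 - ε` the minimal spanning forest of `J` (which does not depend on `t`) in `Λ`, up to the
fraction `ε`. -/
theorem result (d : ℕ) (Z : Finset (Site d)) (ε : ℝ) (hε : 0 < ε) : ∃ R : ℕ,
    (∃ K δ : ℝ, 0 < K ∧ 0 < δ ∧
      ∀ (μ : Measure ℝ) [IsProbabilityMeasure μ], (∀ x, μ {x} = 0) →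
      (μ.prod μ).real {p : ℝ × ℝ | |p.1| ≤ K * |p.2| ∧ |p.2| ≤ K * |p.1|} ≤ δ →
      ∀ Λ : Finset (Site d), (Measure.infinitePi fun _ : Bond d => μ)
        {J | ¬ Follow R ε Λ Z J J} ≤ ENNReal.ofReal ε) ∧
    ∀ (μ : Measure ℝ) [IsProbabilityMeasure μ], (∀ x, μ {x} = 0) → ∃ t₀ : ℝ, 0 < t₀ ∧
      ∀ t : ℝ, t₀ ≤ t → ∀ Λ : Finset (Site d), (Measure.infinitePi fun _ : Bond d => μ)
        {J | ¬ Follow R ε Λ Z J fun e => Real.sign (J e) * |J e| ^ t} ≤ ENNReal.ofReal ε := by
  obtain ⟨R, K, δ, hK, hδ, h⟩ := core Z ε hε
  refine ⟨R, ⟨K, δ, hK, hδ, fun μ _ h0 hμ Λ => ?_⟩, fun μ _ h0 => ?_⟩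
  · refine le_trans (measure_mono fun J hJ => ?_) (h μ h0 hμ Λ)
    by_contra hc
    exact hJ (follow_of hc)
  · obtain ⟨t₀, ht₀, ht⟩ := core_pow hK hδ h μ h0
    refine ⟨t₀, ht₀, fun t h1 Λ => ?_⟩
    refine le_trans (measure_mono fun J hJ => ?_) (ht t h1 Λ)
    by_contra hc
    exact hJ (follow_pw (lt_of_lt_of_le ht₀ h1) hc)

end Pool.Agent.Results.MP_37ff18_mp.MinimalSpanningForest
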