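import Pool.Agent.Zk83.SB.Parts
import Pool.Agent.Zk83.SB.N
import Pool.Agent.Zk69.SB.B
import Pool.Agent.Zk69.SB.C
import Pool.Agent.Zk69.SB.M
import Pool.Agent.Zk69.SB.R
import Pool.Agent.Zk69.SB.H
import Pool.Agent.Zk69.SB.R2
import Pool.Agent.Zk86.SB.G
import Pool.Agent.Zk86.SB.G2
import Pool.Agent.Zk86.SB.E

/-!
# MP_37ff18_mp: ground states of spin glasses do not break the spin flip symmetry

The definitions are in `Zk83/SB/Sym.lean` (`Site`, `Bond`, `tip`, `IsGroundState`, `mJ`, `mS`, `gJ`),
`Zk83/SB/Stm2.lean` (`flipOn`, `cost`), `Zk83/SB/Stm6.lean` (`BoxGS`, `cube`), `Zk83/SB/Geo.lean` (`ball`),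
`Zk83/SB/U3.lean` (`OddObs`), `Zk83/SB/U7.lean` (`GaugeInv`), `Zk83/SB/Lim.lean` (`Asymptotic`, `IsGibbs`),
`Zk58/EK/Base.lean` (energies, part 4) and `Zk83/SB/Parts.lean` (the statements of the four parts).

Let the law of the couplings of the Edwards-Anderson model on `ℤ^d` be invariant under all gauge transformations
`J_xy → ε_x J_xy ε_y` (for example independent symmetric couplings, not necessarily identically distributed).

1. In the cube `[0, n)^d`, with probability at least `1 - exp (-c n ^ d)`, all `k`-tuples of ground states, for all
   boundary conditions (which may depend on the couplings), have `|∑_x F_x| < δ n ^ d`, for local observables `F_x`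
   which are odd under the simultaneous flip of all spins. The numbers `c` and `n₀` depend only on `d`, the number of
   replicas, the range of the observables and `δ`. Hence almost surely all averages of odd local observables tend to
   zero, uniformly over all ground states. In particular no ground state is magnetized.

2. If the law of the couplings is also translation invariant, then every translation invariant joint law of couplings
   and ground states is invariant under the flip of the spins. There is no measurable translation covariant choice of a
   ground state. If there is almost surely only one pair of ground states, then there is at most one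
   translation invariant joint law.

3. Zero temperature limits and zero field limits, for iid symmetric atomless couplings: asymptotically translation
   invariant joint laws of couplings and spins which are asymptotically ground states are asymptotically flip
   invariant. This applies to ground states in external fields which tend to zero uniformly and which may depend on
   the couplings, and to Gibbs laws at temperatures tending to zero.

4. For iid symmetric atomless square integrable couplings, `d ≥ 2`: if `t` times the sum of the translates of an odd
   local observable is added to the energy of `k` replicas, then the optimal energy per site is differentiable at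
   `t = 0` with derivative `0`. All nearly optimal configurations of large cubes have small averages of odd local
   observables.

Idea of the proof of 1: flip the spins in the cells of a large grid independently, and change the couplings across the
boundaries of the cells accordingly. This does not change the law of the couplings, and the sum of an odd observable
becomes a sum of independent signs times block sums. On the other hand there are only `exp (O (n ^ (d - 1)))`
restrictions of ground states to the cube since a ground state is determined by its boundary values.
-/

set_option autoImplicit false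

open MeasureTheory ProbabilityTheory Filter Topology
open Pool.Agent.Zk83.SB

namespace Pool.Agent.Results.MP_37ff18_mp.SymmetryBreaking

/-- **Main theorem.** -/
theorem result : Part1 ∧ Part2 ∧ Part3 ∧ Part4 := by
  have hB := Pool.Agent.Zk69.SB.t_B
  have hC := Pool.Agent.Zk69.SB.t_C
  have hM := Pool.Agent.Zk69.SB.t_M
  have hR := Pool.Agent.Zk69.SB.t_R
  have hH := Pool.Agent.Zk69.SB.t_H
  have hR2 := Pool.Agent.Zk69.SB.t_R2
  have hG := Pool.Agent.Zk86.SB.t_G
  have hG2 := Pool.Agent.Zk86.SB.t_G2
  refine ⟨⟨?_, ?_, ?_⟩, ?_, ?_, ?_⟩
  · intro d k r hd δ hδ
    exact uniform hH hR2 hG2 d k r hd δ hδ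
  · intro d k r hd P _ hP F hF
    filter_upwards [uniform_as hH hR2 hG2 hd P hP F hF] with J hJ δ hδ
    filter_upwards [hJ δ hδ] with n hn σ hσ
    exact hn σ fun a => (hσ a).elim (fun h => box_of_gs h _) id
  · intro d μ _ hs
    exact gauge_indep μ hs
  · intro d P _ hg hv
    have hP : ∀ v : Site d, Inv v P := fun v => ⟨hv v, hg⟩
    refine ⟨?_, ?_, ?_⟩
    · intro Q hQ
      have := hQ.prob
      exact joint_all hB hC hM hR hG hP Q hQ.fst hQ.inv hQ.gs
    · intro S hS hcov
      exact no_choice hB hC hM hR hG hP S hS hcov
    · intro hone Q Q' hQ hQ'
      have := hQ.prob
      have := hQ'.prob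
      exact unique_all hB hC hM hR hG hP hone Q Q' hQ.fst hQ'.fst hQ.inv hQ'.inv hQ.gs hQ'.gs
  · intro d hd μ _ hat hsym Q hQ hcase g
    refine limits_all hB hC hM hR hG t_N t_K hd μ hat hsym Q hQ.prob hQ.fst hQ.inv hQ.sign ?_ g
    rcases hcase with h | ⟨ε, hε, h⟩ | ⟨β, hβ, h⟩
    · exact h
    · exact asymptotic_field Q ε hε hQ.sign h
    · exact asymptotic_gibbs t_K Q hQ.prob β hβ h
  · intro d hd μ _ h2 hat hsym k R F hloc hmeas hbd hodd
    obtain ⟨g, h1, h3, h4, h5⟩ :=
      energy Pool.Agent.Zk86.SB.t_E hH hR2 hG2 hd μ h2 hat hsym k R F hloc hmeas hbd hodd
    refine ⟨g, h1, h3, h4, fun ε hε => ?_⟩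
    obtain ⟨δ, hδ, h⟩ := h5 ε hε
    refine ⟨δ, hδ, fun c => ?_⟩
    filter_upwards [h c] with X hX
    filter_upwards [hX] with n hn σ hσ
    exact hn.1 σ hσ

end Pool.Agent.Results.MP_37ff18_mp.SymmetryBreaking
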